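import Mathlib

/-!
General construction of a Liouville measure from a locally finite subgroup.
-/

namespace Pool.Agent.H949R3

open Filter Topology

open scoped Pointwise

section Construction

variable {G : Type} [Group G]

/-- geometric weights -/
noncomputable def cw (m : ℕ) : ℝ := (1 / 2 : ℝ) ^ (m + 1)

noncomputable def eta (m : ℕ) : ℝ := 1 / ((m : ℝ) + 1)

lemma cw_pos (m : ℕ) : 0 < cw m := by unfold cw; positivity

lemma eta_pos (m : ℕ) : 0 < eta m := by unfold eta; positivity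

lemma eta_le_one (m : ℕ) : eta m ≤ 1 := by
  unfold eta
  rw [div_le_one (by positivity)]
  have : (0 : ℝ) ≤ m := Nat.cast_nonneg m
  linarith

lemma eta_anti {m l : ℕ} (h : m ≤ l) : eta l ≤ eta m := by
  unfold eta
  apply one_div_le_one_div_of_le (by positivity)
  have : (m : ℝ) ≤ l := by exact_mod_cast h
  linarith

lemma hasSum_cw : HasSum cw 1 := by
  have h := hasSum_geometric_two' (1 : ℝ)
  have e : cw = fun n : ℕ => (1 : ℝ) / 2 / 2 ^ n := by
    funext n
    unfold cw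
    rw [pow_succ, one_div_pow]
    field_simp
  rw [e]; exact h

lemma sum_cw_range (m : ℕ) : ∑ l ∈ Finset.range m, cw l = 1 - (1 / 2 : ℝ) ^ m := by
  induction m with
  | zero => simp
  | succ n ih =>
    rw [Finset.sum_range_succ, ih]
    unfold cw
    ring

variable (F : Finset G) (a : G)

open Classical in
/-- one block of the measure -/
noncomputable def nu (t : ℝ) (F : Finset G) (a : G) (g : G) : ℝ :=
  (1 - t) * (if g ∈ F then 1 / (F.card : ℝ) else 0) +
    t * (((if g = a then 1 else 0) + (if g = a⁻¹ then 1 else 0)) / 2)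

/-- the corresponding averaging functional -/
noncomputable def Pav (t : ℝ) (F : Finset G) (a : G) (φ : G → ℝ) : ℝ :=
  (1 - t) * ((∑ g ∈ F, φ g) / (F.card : ℝ)) + t * ((φ a + φ a⁻¹) / 2)

lemma hasSum_nu (t : ℝ) (F : Finset G) (a : G) (φ : G → ℝ) :
    HasSum (fun g => nu t F a g * φ g) (Pav t F a φ) := by
  classical
  have h1 : HasSum (fun g => (if g ∈ F then 1 / (F.card : ℝ) else 0) * φ g)
      ((∑ g ∈ F, φ g) / (F.card : ℝ)) := by
    have e : (∑ g ∈ F, φ g) / (F.card : ℝ)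
        = ∑ g ∈ F, (if g ∈ F then 1 / (F.card : ℝ) else 0) * φ g := by
      rw [Finset.sum_div]
      apply Finset.sum_congr rfl
      intro g hg
      rw [if_pos hg]; ring
    rw [e]
    exact hasSum_sum_of_ne_finset_zero (by intro b hb; simp [hb])
  have h2 : ∀ b : G, HasSum (fun g => (if g = b then (1 : ℝ) else 0) * φ g) (φ b) := by
    intro b
    have e : (fun g => (if g = b then (1 : ℝ) else 0) * φ g) = fun g => if g = b then φ b else 0 := by
      funext g
      by_cases h : g = b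
      · subst h; simp
      · simp [h]
    rw [e]
    exact hasSum_ite_eq b (φ b)
  have h3 := ((h2 a).add (h2 a⁻¹)).mul_left (t / 2)
  have h4 := (h1.mul_left (1 - t)).add h3
  have e1 : (fun g => nu t F a g * φ g) = fun b => (1 - t) * ((if b ∈ F then 1 / (F.card : ℝ) else 0) * φ b) +
        t / 2 * ((if b = a then 1 else 0) * φ b + (if b = a⁻¹ then 1 else 0) * φ b) := by
    funext g
    unfold nu
    ring
  have e2 : Pav t F a φ = (1 - t) * ((∑ g ∈ F, φ g) / (F.card : ℝ)) + t / 2 * (φ a + φ a⁻¹) := by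
    unfold Pav; ring
  rw [e1, e2]
  exact h4

lemma nu_nonneg {t : ℝ} (ht : 0 ≤ t) (ht1 : t ≤ 1) (F : Finset G) (a g : G) : 0 ≤ nu t F a g := by
  classical
  unfold nu
  apply add_nonneg
  · apply mul_nonneg (by linarith)
    split_ifs <;> positivity
  · apply mul_nonneg ht
    split_ifs <;> norm_num

lemma nu_self {t : ℝ} (ht : 0 < t) (ht1 : t ≤ 1) (F : Finset G) (a : G) : 0 < nu t F a a := by
  classical
  unfold nu
  apply add_pos_of_nonneg_of_pos
  · apply mul_nonneg (by linarith)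
    split_ifs <;> positivity
  · apply mul_pos ht
    split_ifs <;> norm_num at *

lemma nu_inv {t : ℝ} (F : Finset G) (hF : ∀ g, g⁻¹ ∈ F ↔ g ∈ F) (a g : G) :
    nu t F a g⁻¹ = nu t F a g := by
  classical
  unfold nu
  simp only [hF, inv_inj]
  have : (g⁻¹ = a) ↔ (g = a⁻¹) := by
    constructor
    · rintro rfl; simp
    · rintro rfl; simp
  simp only [this]
  ring

lemma Pav_one {t : ℝ} (F : Finset G) (hF : F.Nonempty) (a : G) : Pav t F a (fun _ => 1) = 1 := by
  unfold Pav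
  have : (F.card : ℝ) ≠ 0 := by
    have := hF.card_pos
    positivity
  simp [this]

/-- If the two functions differ by at most `E` on the support then so do the averages. -/
lemma Pav_sub_le {t : ℝ} (ht : 0 ≤ t) (ht1 : t ≤ 1) (F : Finset G) (hF : F.Nonempty) (a : G)
    (φ ψ : G → ℝ) (E : ℝ) (h1 : ∀ g ∈ F, |φ g - ψ g| ≤ E) (h2 : |φ a - ψ a| ≤ E)
    (h3 : |φ a⁻¹ - ψ a⁻¹| ≤ E) : |Pav t F a φ - Pav t F a ψ| ≤ E := by
  have hc : (0 : ℝ) < F.card := by
    have := hF.card_pos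
    positivity
  have e : Pav t F a φ - Pav t F a ψ
      = (1 - t) * ((∑ g ∈ F, (φ g - ψ g)) / (F.card : ℝ))
        + t * (((φ a - ψ a) + (φ a⁻¹ - ψ a⁻¹)) / 2) := by
    unfold Pav
    rw [Finset.sum_sub_distrib]
    ring
  have hs : |∑ g ∈ F, (φ g - ψ g)| ≤ F.card * E := by
    calc |∑ g ∈ F, (φ g - ψ g)| ≤ ∑ g ∈ F, |φ g - ψ g| := Finset.abs_sum_le_sum_abs _ _
      _ ≤ ∑ g ∈ F, E := Finset.sum_le_sum h1
      _ = F.card * E := by simp
  have hs' : |(∑ g ∈ F, (φ g - ψ g)) / (F.card : ℝ)| ≤ E := by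
    rw [abs_div, abs_of_pos hc, div_le_iff₀ hc]
    linarith
  have hs'' : |((φ a - ψ a) + (φ a⁻¹ - ψ a⁻¹)) / 2| ≤ E := by
    rw [abs_div, abs_of_pos (by norm_num : (0 : ℝ) < 2), div_le_iff₀ (by norm_num)]
    have := abs_add_le (φ a - ψ a) (φ a⁻¹ - ψ a⁻¹)
    linarith
  rw [e]
  calc _ ≤ |(1 - t) * ((∑ g ∈ F, (φ g - ψ g)) / (F.card : ℝ))|
        + |t * (((φ a - ψ a) + (φ a⁻¹ - ψ a⁻¹)) / 2)| := abs_add_le _ _
    _ ≤ (1 - t) * E + t * E := by
        rw [abs_mul, abs_mul, abs_of_nonneg (by linarith : (0 : ℝ) ≤ 1 - t), abs_of_nonneg ht]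
        exact add_le_add (mul_le_mul_of_nonneg_left hs' (by linarith))
          (mul_le_mul_of_nonneg_left hs'' ht)
    _ = E := by ring

/-- If the two functions have the same average over `F`, only the small part contributes. -/
lemma Pav_sub_le' {t : ℝ} (ht : 0 ≤ t) (F : Finset G) (a : G)
    (φ ψ : G → ℝ) (E : ℝ) (h1 : ∑ g ∈ F, φ g = ∑ g ∈ F, ψ g) (h2 : |φ a - ψ a| ≤ E)
    (h3 : |φ a⁻¹ - ψ a⁻¹| ≤ E) : |Pav t F a φ - Pav t F a ψ| ≤ t * E := by
  have e : Pav t F a φ - Pav t F a ψ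
      = t * (((φ a - ψ a) + (φ a⁻¹ - ψ a⁻¹)) / 2) := by
    unfold Pav
    rw [h1]
    ring
  have hs'' : |((φ a - ψ a) + (φ a⁻¹ - ψ a⁻¹)) / 2| ≤ E := by
    rw [abs_div, abs_of_pos (by norm_num : (0 : ℝ) < 2), div_le_iff₀ (by norm_num)]
    have := abs_add_le (φ a - ψ a) (φ a⁻¹ - ψ a⁻¹)
    linarith
  rw [e, abs_mul, abs_of_nonneg ht]
  exact mul_le_mul_of_nonneg_left hs'' ht

end Construction

section Fubini

variable {G : Type} (ν : ℕ → G → ℝ) (h0 : ∀ m g, 0 ≤ ν m g) (h1 : ∀ m, HasSum (ν m) 1)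

include h0 h1 in
lemma summable_prod_cw : Summable (fun p : ℕ × G => cw p.1 * ν p.1 p.2) := by
  have hnn : ∀ p : ℕ × G, 0 ≤ cw p.1 * ν p.1 p.2 := by
    intro p
    exact mul_nonneg (cw_pos _).le (h0 _ _)
  have key : (fun m => ∑' g, cw m * ν m g) = cw := by
    funext m
    rw [tsum_mul_left, (h1 m).tsum_eq, mul_one]
  have h2 : Summable (fun m => ∑' g, cw m * ν m g) := by
    rw [key]
    exact hasSum_cw.summable
  have h3 : ∀ m, Summable (fun g => cw m * ν m g) := fun m => (h1 m).summable.mul_left _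
  exact (summable_prod_of_nonneg (f := fun p : ℕ × G => cw p.1 * ν p.1 p.2) hnn).mpr ⟨h3, h2⟩

include h0 h1 in
lemma summable_prod_cw_mul (φ : G → ℝ) (B : ℝ) (hφ : ∀ g, |φ g| ≤ B) :
    Summable (fun p : ℕ × G => cw p.1 * ν p.1 p.2 * φ p.2) := by
  apply Summable.of_norm_bounded ((summable_prod_cw ν h0 h1).mul_right B)
  intro p
  rw [Real.norm_eq_abs, abs_mul, abs_of_nonneg (mul_nonneg (cw_pos _).le (h0 _ _))]
  exact mul_le_mul_of_nonneg_left (hφ _) (mul_nonneg (cw_pos _).le (h0 _ _))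

include h0 h1 in
lemma summable_section (g : G) : Summable (fun m => cw m * ν m g) := by
  have h := summable_prod_cw ν h0 h1
  exact h.comp_injective (i := fun m : ℕ => (m, g)) (fun a b hab => by simpa using hab)

include h0 h1 in
lemma tsum_mu_mul (φ : G → ℝ) (B : ℝ) (hφ : ∀ g, |φ g| ≤ B) :
    HasSum (fun g => (∑' m, cw m * ν m g) * φ g) (∑' m, cw m * ∑' g, ν m g * φ g) := by
  have hs := summable_prod_cw_mul ν h0 h1 φ B hφ
  have hs' : Summable (fun p : G × ℕ => cw p.2 * ν p.2 p.1 * φ p.1) := by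
    have := (Equiv.prodComm G ℕ).summable_iff.mpr hs
    exact this
  have e1 : ∀ g, ∑' m, cw m * ν m g * φ g = (∑' m, cw m * ν m g) * φ g := by
    intro g
    rw [tsum_mul_right]
  have e2 : ∀ m, ∑' g, cw m * ν m g * φ g = cw m * ∑' g, ν m g * φ g := by
    intro m
    rw [← tsum_mul_left]
    congr 1
    funext g
    ring
  have h3 : HasSum (fun g => ∑' m, cw m * ν m g * φ g) (∑' p : G × ℕ, cw p.2 * ν p.2 p.1 * φ p.1) :=
    hs'.hasSum.prod_fiberwise (fun g => (hs'.prod_factor g).hasSum)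
  have h4 : (∑' p : G × ℕ, cw p.2 * ν p.2 p.1 * φ p.1) = ∑' m, cw m * ∑' g, ν m g * φ g := by
    rw [← (Equiv.prodComm ℕ G).tsum_eq]
    have : (fun c : ℕ × G => cw ((Equiv.prodComm ℕ G) c).2 * ν ((Equiv.prodComm ℕ G) c).2
        ((Equiv.prodComm ℕ G) c).1 * φ ((Equiv.prodComm ℕ G) c).1)
        = fun p : ℕ × G => cw p.1 * ν p.1 p.2 * φ p.2 := by
      funext c; rfl
    rw [this, hs.tsum_prod]
    congr 1
    funext m
    exact e2 m
  rw [← h4]
  simpa [e1] using h3

end Fubini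

end Pool.Agent.H949R3
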