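import Pool.Agent.H949R3.Liouville

/-!
A countable group acting with the same orbits as an increasing union of finite subgroups carries
a symmetric measure of full support whose bounded harmonic functions are constant on orbits.
-/

namespace Pool.Agent.H949R3

open Filter Topology

open scoped Pointwise

variable {G Y : Type} [Group G] [MulAction G Y]

/-- the number of steps used at level `m` -/
def KK (m : ℕ) : ℕ := m * 2 ^ m

lemma KK_mono {m l : ℕ} (h : m ≤ l) : KK m ≤ KK l := by
  unfold KK
  exact Nat.mul_le_mul h (Nat.pow_le_pow_right (by norm_num) h)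

open Classical in
lemma exists_level (H : ℕ → Subgroup G) (hmono : Monotone H)
    (horb : ∀ (g : G) (y : Y), ∃ k, ∃ a ∈ H k, a • y = g • y) (e : ℕ → Y) (m : ℕ) (S : Finset G) :
    ∃ k, ∀ i ∈ Finset.range m, ∀ j ∈ Finset.range m, ∀ h ∈ S ^ (KK m),
      (∃ g : G, e j = g • e i) → ∃ a ∈ H k, a • (h • e i) = h • e j := by
  have hev : ∀ᶠ k in atTop, ∀ i ∈ Finset.range m, ∀ j ∈ Finset.range m, ∀ h ∈ S ^ (KK m),
      (∃ g : G, e j = g • e i) → ∃ a ∈ H k, a • (h • e i) = h • e j := by
    rw [eventually_all_finset]
    intro i _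
    rw [eventually_all_finset]
    intro j _
    rw [eventually_all_finset]
    intro h _
    by_cases hg : ∃ g : G, e j = g • e i
    · obtain ⟨g, hg⟩ := hg
      obtain ⟨k, a, ha, hak⟩ := horb (h * g * h⁻¹) (h • e i)
      filter_upwards [eventually_ge_atTop k] with k' hk' _
      refine ⟨a, hmono hk' ha, ?_⟩
      rw [hak, hg]
      simp only [mul_smul, inv_smul_smul]
    · filter_upwards with k' hk
      exact absurd hk hg
  exact hev.exists

open Classical in
/-- the finite sets carrying the first blocks -/
noncomputable def SS (F : ℕ → Finset G) (eg : ℕ → G) (κ : ℕ → Finset G → ℕ) : ℕ → Finset G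
  | 0 => {1}
  | (m + 1) => SS F eg κ m ∪ F (κ m (SS F eg κ m)) ∪ {eg m, (eg m)⁻¹}

section

variable (F : ℕ → Finset G) (eg : ℕ → G) (κ : ℕ → Finset G → ℕ)

lemma SS_succ_sub (m : ℕ) : SS F eg κ m ⊆ SS F eg κ (m + 1) := by
  classical
  intro g hg
  simp only [SS, Finset.mem_union]
  exact Or.inl (Or.inl hg)

lemma SS_mono {m l : ℕ} (h : m ≤ l) : SS F eg κ m ⊆ SS F eg κ l := by
  induction l, h using Nat.le_induction with
  | base => exact fun _ h => h
  | succ n _ ih => exact ih.trans (SS_succ_sub F eg κ n)

lemma one_mem_SS (m : ℕ) : (1 : G) ∈ SS F eg κ m :=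
  SS_mono F eg κ (Nat.zero_le m) (by simp [SS])

lemma F_sub_SS {l m : ℕ} (h : l < m) : F (κ l (SS F eg κ l)) ⊆ SS F eg κ m := by
  classical
  refine Finset.Subset.trans ?_ (SS_mono F eg κ (Nat.succ_le_of_lt h))
  intro g hg
  simp only [SS, Finset.mem_union]
  exact Or.inl (Or.inr hg)

lemma eg_mem_SS {l m : ℕ} (h : l < m) : eg l ∈ SS F eg κ m := by
  classical
  refine (SS_mono F eg κ (Nat.succ_le_of_lt h)) ?_
  simp [SS]

lemma eg_inv_mem_SS {l m : ℕ} (h : l < m) : (eg l)⁻¹ ∈ SS F eg κ m := by
  classical
  refine (SS_mono F eg κ (Nat.succ_le_of_lt h)) ?_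
  simp [SS]

end

lemma pow_exp_bound (m : ℕ) : (1 - (1 / 2 : ℝ) ^ m) ^ (KK m) ≤ Real.exp (-(m : ℝ)) := by
  have h0 : (0 : ℝ) ≤ 1 - (1 / 2 : ℝ) ^ m := by
    have : (1 / 2 : ℝ) ^ m ≤ 1 := pow_le_one₀ (by norm_num) (by norm_num)
    linarith
  have h1 : 1 - (1 / 2 : ℝ) ^ m ≤ Real.exp (-(1 / 2 : ℝ) ^ m) := by
    have := Real.add_one_le_exp (-(1 / 2 : ℝ) ^ m)
    linarith
  calc (1 - (1 / 2 : ℝ) ^ m) ^ (KK m) ≤ (Real.exp (-(1 / 2 : ℝ) ^ m)) ^ (KK m) :=
        pow_le_pow_left₀ h0 h1 _
    _ = Real.exp (-(m : ℝ)) := by
        rw [← Real.exp_nat_mul]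
        congr 1
        unfold KK
        push_cast
        have : (2 : ℝ) ^ m * (1 / 2 : ℝ) ^ m = 1 := by
          rw [← mul_pow]; norm_num
        linear_combination (-(m : ℝ)) * this

/-- Main construction. -/
theorem exists_measure [Countable G] [Countable Y] [Nonempty Y]
    (H : ℕ → Subgroup G) [hfin : ∀ k, Finite (H k)] (hmono : Monotone H)
    (horb : ∀ (g : G) (y : Y), ∃ k, ∃ a ∈ H k, a • y = g • y) :
    ∃ μ : G → ℝ, (∀ g, 0 < μ g) ∧ HasSum μ 1 ∧ (∀ g, μ g⁻¹ = μ g) ∧
      ∀ f : Y → ℝ, (∃ B, ∀ y, |f y| ≤ B) → (∀ y, f y = ∑' g, μ g * f (g • y)) →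
        ∀ (g : G) (y : Y), f (g • y) = f y := by
  classical
  obtain ⟨e, he⟩ := exists_surjective_nat Y
  obtain ⟨eg, heg⟩ := exists_surjective_nat G
  choose κ hκ using exists_level H hmono horb e
  let F : ℕ → Finset G := fun k => (Set.toFinite (H k : Set G)).toFinset
  have hF : ∀ k g, g ∈ F k ↔ g ∈ H k := by
    intro k g; simp [F]
  have hFne : ∀ k, (F k).Nonempty := fun k => ⟨1, (hF k 1).mpr (H k).one_mem⟩
  let S : ℕ → Finset G := SS F eg κ
  let k : ℕ → ℕ := fun m => κ m (S m)
  let ν : ℕ → G → ℝ := fun m => nu (eta m) (F (k m)) (eg m)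
  have hν0 : ∀ m g, 0 ≤ ν m g := fun m g => nu_nonneg (eta_pos m).le (eta_le_one m) _ _ _
  have hν1 : ∀ m, HasSum (ν m) 1 := by
    intro m
    have := hasSum_nu (eta m) (F (k m)) (eg m) (fun _ => 1)
    rw [Pav_one _ (hFne _)] at this
    simpa using this
  refine ⟨fun g => ∑' m, cw m * ν m g, ?_, ?_, ?_, ?_⟩
  · intro g
    obtain ⟨n, rfl⟩ := heg g
    have hs := summable_section ν hν0 hν1 (eg n)
    exact hs.tsum_pos (fun m => mul_nonneg (cw_pos _).le (hν0 _ _)) n
      (mul_pos (cw_pos _) (nu_self (eta_pos n) (eta_le_one n) _ _))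
  · have h := tsum_mu_mul ν hν0 hν1 (fun _ => 1) 1 (by simp)
    have e1 : (∑' m, cw m * ∑' g, ν m g * 1) = 1 := by
      have : (fun m => cw m * ∑' g, ν m g * 1) = cw := by
        funext m
        have : (∑' g, ν m g * 1) = 1 := by
          simp only [mul_one]
          exact (hν1 m).tsum_eq
        rw [this, mul_one]
      rw [this]
      exact hasSum_cw.tsum_eq
    rw [e1] at h
    simpa using h
  · intro g
    have : ∀ m, ν m g⁻¹ = ν m g := by
      intro m
      apply nu_inv
      intro g
      rw [hF, hF]
      exact (H _).inv_mem_iff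
    simp only [this]
  · intro f hB hf
    obtain ⟨B, hB⟩ := hB
    have hB0 : 0 ≤ B := le_trans (abs_nonneg _) (hB (Classical.arbitrary Y))
    -- rewrite harmonicity through the blocks
    have hf' : ∀ y, HasSum (fun m => cw m * Pav (eta m) (F (k m)) (eg m) (fun g => f (g • y))) (f y) := by
      intro y
      have h := tsum_mu_mul ν hν0 hν1 (fun g => f (g • y)) B (fun g => hB _)
      have e1 : ∀ m, (∑' g, ν m g * f (g • y)) = Pav (eta m) (F (k m)) (eg m) (fun g => f (g • y)) :=
        fun m => (hasSum_nu (eta m) (F (k m)) (eg m) (fun g => f (g • y))).tsum_eq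
      have e2 : f y = ∑' m, cw m * Pav (eta m) (F (k m)) (eg m) (fun g => f (g • y)) := by
        rw [hf y, h.tsum_eq]
        congr 1
        funext m
        rw [e1]
      rw [e2]
      apply Summable.hasSum
      apply Summable.of_norm_bounded (hasSum_cw.summable.mul_right B)
      intro m
      rw [Real.norm_eq_abs, abs_mul, abs_of_nonneg (cw_pos m).le]
      apply mul_le_mul_of_nonneg_left _ (cw_pos m).le
      have h0 : Pav (eta m) (F (k m)) (eg m) (fun _ => (0 : ℝ)) = 0 := by
        unfold Pav; simp
      have := Pav_sub_le (eta_pos m).le (eta_le_one m) (F (k m)) (hFne _) (eg m)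
        (fun g => f (g • y)) (fun _ => 0) B (by intro g _; simpa using hB _)
        (by simpa using hB _) (by simpa using hB _)
      rw [h0] at this
      simpa using this
    -- the key estimate
    have key : ∀ m : ℕ, ∀ d j : ℕ, j + d = KK m → ∀ i < m, ∀ i' < m, (∃ g : G, e i' = g • e i) →
        ∀ h ∈ S m ^ j, |f (h • e i) - f (h • e i')| ≤
          2 * B * ((1 - (1 / 2 : ℝ) ^ m) ^ d + eta m) := by
      intro m d
      have hq0 : (0 : ℝ) ≤ 1 - (1 / 2 : ℝ) ^ m := by
        have : (1 / 2 : ℝ) ^ m ≤ 1 := pow_le_one₀ (by norm_num) (by norm_num)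
        linarith
      induction d with
      | zero =>
        intro j _ i _ i' _ _ h _
        have h1 : |f (h • e i) - f (h • e i')| ≤ 2 * B := by
          have := abs_sub (f (h • e i)) (f (h • e i'))
          have h2 := hB (h • e i)
          have h3 := hB (h • e i')
          calc |f (h • e i) - f (h • e i')| ≤ |f (h • e i)| + |f (h • e i')| := abs_sub _ _
            _ ≤ 2 * B := by linarith
        have := (eta_pos m).le
        have h4 : 2 * B * 1 ≤ 2 * B * ((1 - (1 / 2 : ℝ) ^ m) ^ 0 + eta m) := by
          apply mul_le_mul_of_nonneg_left _ (by linarith)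
          rw [pow_zero]; linarith
        linarith
      | succ d ih =>
        intro j hj i hi i' hi' hii h hh
        have hE2 : (0 : ℝ) ≤ 2 * B * eta m := by
          have := (eta_pos m).le
          positivity
        have ih' := ih (j + 1) (by omega) i hi i' hi' hii
        have hjK : j ≤ KK m := by omega
        -- block estimates
        have hblock : ∀ l, |Pav (eta l) (F (k l)) (eg l) (fun g => f (g • h • e i))
            - Pav (eta l) (F (k l)) (eg l) (fun g => f (g • h • e i'))| ≤
            2 * B * eta m + (if l ∈ Finset.range m then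
              2 * B * (1 - (1 / 2 : ℝ) ^ m) ^ d else 0) := by
          intro l
          by_cases hl : l < m
          · rw [if_pos (Finset.mem_range.mpr hl)]
            have hstep : ∀ g ∈ S m, |f (g • h • e i) - f (g • h • e i')| ≤
                2 * B * eta m + 2 * B * (1 - (1 / 2 : ℝ) ^ m) ^ d := by
              intro g hg
              have hgh : g * h ∈ S m ^ (j + 1) := by
                rw [pow_succ']
                exact Finset.mul_mem_mul hg hh
              have := ih' (g * h) hgh
              rw [mul_smul, mul_smul] at this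
              linarith
            apply Pav_sub_le (eta_pos l).le (eta_le_one l) (F (k l)) (hFne _) (eg l)
            · intro g hg
              exact hstep g (F_sub_SS F eg κ hl hg)
            · exact hstep _ (eg_mem_SS F eg κ hl)
            · exact hstep _ (eg_inv_mem_SS F eg κ hl)
          · rw [if_neg (by simpa using hl), add_zero]
            push Not at hl
            have hh' : h ∈ S l ^ (KK l) := by
              have h1 : S m ^ j ⊆ S l ^ j := Finset.pow_subset_pow_left (SS_mono F eg κ hl)
              have h2 : S l ^ j ⊆ S l ^ (KK l) :=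
                Finset.pow_subset_pow_right (one_mem_SS F eg κ l) (hjK.trans (KK_mono hl))
              exact h2 (h1 hh)
            obtain ⟨a, ha, hae⟩ := hκ l (S l) i (Finset.mem_range.mpr (by omega)) i'
              (Finset.mem_range.mpr (by omega)) h hh' hii
            have hsum : ∑ g ∈ F (k l), f (g • h • e i) = ∑ g ∈ F (k l), f (g • h • e i') := by
              symm
              apply Finset.sum_bij (fun g _ => g * a)
              · intro g hg
                rw [hF] at hg ⊢
                exact (H _).mul_mem hg ha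
              · intro g _ g' _ hgg
                exact mul_right_cancel hgg
              · intro g hg
                refine ⟨g * a⁻¹, ?_, by simp⟩
                rw [hF] at hg ⊢
                exact (H _).mul_mem hg ((H _).inv_mem ha)
              · intro g _
                rw [mul_smul, hae]
            have hbd : ∀ u v : Y, |f u - f v| ≤ 2 * B := by
              intro u v
              calc |f u - f v| ≤ |f u| + |f v| := abs_sub _ _
                _ ≤ 2 * B := by linarith [hB u, hB v]
            have h1 := Pav_sub_le' (eta_pos l).le (F (k l)) (eg l)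
              (fun g => f (g • h • e i)) (fun g => f (g • h • e i')) (2 * B) hsum
              (hbd _ _) (hbd _ _)
            have h2 := eta_anti hl
            have h3 : eta l * (2 * B) ≤ eta m * (2 * B) :=
              mul_le_mul_of_nonneg_right h2 (by linarith)
            linarith
        have hs1 := (hf' (h • e i)).sub (hf' (h • e i'))
        have hmaj : HasSum (fun l => cw l * (2 * B * eta m + (if l ∈ Finset.range m then
              2 * B * (1 - (1 / 2 : ℝ) ^ m) ^ d else 0)))
              (2 * B * eta m + (1 - (1 / 2 : ℝ) ^ m) * (2 * B * (1 - (1 / 2 : ℝ) ^ m) ^ d)) := by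
          have e1 : (fun l => cw l * (2 * B * eta m + (if l ∈ Finset.range m then
              2 * B * (1 - (1 / 2 : ℝ) ^ m) ^ d else 0)))
              = fun l => cw l * (2 * B * eta m) + (if l ∈ Finset.range m then
                cw l * (2 * B * (1 - (1 / 2 : ℝ) ^ m) ^ d) else 0) := by
            funext l
            split_ifs <;> ring
          rw [e1]
          have a1 := hasSum_cw.mul_right (2 * B * eta m)
          rw [one_mul] at a1
          refine a1.add ?_
          have a2 : (1 - (1 / 2 : ℝ) ^ m) * (2 * B * (1 - (1 / 2 : ℝ) ^ m) ^ d)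
              = ∑ l ∈ Finset.range m, (if l ∈ Finset.range m then
                cw l * (2 * B * (1 - (1 / 2 : ℝ) ^ m) ^ d) else 0) := by
            rw [← sum_cw_range m, Finset.sum_mul]
            apply Finset.sum_congr rfl
            intro l hl
            rw [if_pos hl]
          rw [a2]
          exact hasSum_sum_of_ne_finset_zero (by intro b hb; simp only [if_neg hb])
        have hle : |f (h • e i) - f (h • e i')| ≤
            2 * B * eta m + (1 - (1 / 2 : ℝ) ^ m) * (2 * B * (1 - (1 / 2 : ℝ) ^ m) ^ d) := by
          rw [← hs1.tsum_eq, ← hmaj.tsum_eq]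
          rw [← Real.norm_eq_abs]
          apply tsum_of_norm_bounded hmaj.summable.hasSum
          intro l
          rw [Real.norm_eq_abs, ← mul_sub, abs_mul, abs_of_nonneg (cw_pos l).le]
          exact mul_le_mul_of_nonneg_left (hblock l) (cw_pos l).le
        calc _ ≤ _ := hle
          _ = 2 * B * ((1 - (1 / 2 : ℝ) ^ m) ^ (d + 1) + eta m) := by ring
    -- conclusion
    have hconst : ∀ i i' : ℕ, (∃ g : G, e i' = g • e i) → f (e i) = f (e i') := by
      intro i i' hii
      have hb : ∀ᶠ m : ℕ in atTop, |f (e i) - f (e i')| ≤ 2 * B * (Real.exp (-(m : ℝ)) + eta m) := by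
        filter_upwards [eventually_gt_atTop (max i i')] with m hm
        have h1 := key m (KK m) 0 (by omega) i (lt_of_le_of_lt (le_max_left _ _) hm) i'
          (lt_of_le_of_lt (le_max_right _ _) hm) hii 1 (by simp)
        rw [one_smul, one_smul] at h1
        refine h1.trans ?_
        apply mul_le_mul_of_nonneg_left _ (by linarith)
        linarith [pow_exp_bound m]
      have hlim : Tendsto (fun m : ℕ => 2 * B * (Real.exp (-(m : ℝ)) + eta m)) atTop (𝓝 0) := by
        have t1 : Tendsto (fun m : ℕ => Real.exp (-(m : ℝ))) atTop (𝓝 0) :=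
          Real.tendsto_exp_neg_atTop_nhds_zero.comp tendsto_natCast_atTop_atTop
        have t2 : Tendsto (fun m : ℕ => eta m) atTop (𝓝 0) := tendsto_one_div_add_atTop_nhds_zero_nat
        have := (t1.add t2).const_mul (2 * B)
        simpa using this
      have h0 : |f (e i) - f (e i')| ≤ 0 := ge_of_tendsto hlim hb
      have := abs_nonpos_iff.mp h0
      linarith
    intro g y
    obtain ⟨i, rfl⟩ := he y
    obtain ⟨i', hi'⟩ := he (g • e i)
    rw [← hi']
    exact (hconst i i' ⟨g, hi'⟩).symm

end Pool.Agent.H949R3
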